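import Pool.Agent.H.MP_738f0f_lc.C

set_option autoImplicit false

namespace Pool.Agent.Results.MP_738f0f_lc.Q1

open Filter Pool.Agent.H.MP_738f0f_lc Pool.Agent.Lib.helper21 Pool.Agent.Lib.helper21.PR
open Pool.Agent.H.MP_65fbb9_lc

/-- Oracles computing a function below `h` that is eventually different from every computable
function. -/
def B (h : ℕ → ℕ) : Set (ℕ → Bool) :=
  {A | ∃ y : ℕ → ℕ, TuringReducible (fun n => Part.some (y n)) (Fn.orc A) ∧ (∀ n, y n < h n) ∧
    ∀ x : ℕ → ℕ, Computable x → ∀ᶠ n in atTop, x n ≠ y n}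

/-- Oracles computing a set whose agreement with every computable set has lower density above
`p`. -/
def Bsim (p : ℝ) : Set (ℕ → Bool) :=
  {A | ∃ Y : ℕ → Bool, TuringReducible (Fn.orc Y) (Fn.orc A) ∧
    ∀ S : ℕ → Bool, Computable S → p < ld S Y}

theorem result : B (fun n => 2 ^ 2 ^ n) = Bsim 0 := by
  refine Set.ext fun A => ⟨fun ⟨y, h1, h2, h3⟩ => ?_, fun ⟨Y, h1, h2⟩ => by_contra fun k => ?_⟩
  · obtain ⟨E, a1, a2⟩ := dual
    refine ⟨E y, (a1 A y (.of_red h1)).orc, fun S hS => ?_⟩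
    obtain ⟨x, b1, b2⟩ := a2 S (Computable.ci hS)
    exact (b2 y ((h3 x (comp_nat b1)).mono fun n c => ⟨c, h2 n⟩)).trans_lt' (by norm_num)
  · obtain ⟨S, a1, a2⟩ := sparse (.of_orc h1) fun y b1 b2 => by_contra fun c => k ⟨y, b1.red, b2,
      fun x hx => not_frequently.1 fun e => c ⟨x, Computable.ci hx, e⟩⟩
    exact (h2 S (comp_bool a1)).not_ge a2

end Pool.Agent.Results.MP_738f0f_lc.Q1
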