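import Pool.Agent.H.MP_738f0f_lc.B

set_option autoImplicit false

namespace Pool.Agent.Results.MP_738f0f_lc.Q2

open Filter Pool.Agent.H.MP_738f0f_lc Pool.Agent.Lib.helper21 Pool.Agent.Lib.helper21.PR

attribute [local irreducible] Primrec Computable

/-- Oracles computing a function below `h` that is eventually different from every computable
function. -/
def B (h : ℕ → ℕ) : Set (ℕ → Bool) :=
  {A | ∃ y : ℕ → ℕ, TuringReducible (fun n => Part.some (y n)) (Fn.orc A) ∧ (∀ n, y n < h n) ∧
    ∀ x : ℕ → ℕ, Computable x → ∀ᶠ n in atTop, x n ≠ y n}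

theorem result : B (fun n => 2 ^ 2 ^ n) ⊂ B fun n => 2 ^ n.factorial := by
  refine ⟨fun A ⟨y, h1, h2, h3⟩ => ⟨fun n => if n < 4 then 0 else y n, CI.red ?_, fun n => ?_,
    fun x hx => ((h3 x hx).and (eventually_ge_atTop 4)).mono fun n k => ?_⟩, fun k => ?_⟩
  · have := CI.of_red h1
    fun_prop
  · dsimp only
    split_ifs with b
    · positivity
    · refine (h2 n).trans_le (Nat.pow_le_pow_right two_pos ?_)
      induction n, not_lt.1 b using Nat.le_induction with
      | base => decide
      | succ n hn ih => rw [Nat.factorial_succ, pow_succ']; exact Nat.mul_le_mul (by omega) (ih (by omega))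
  · simpa [k.2.not_gt] using k.1
  · have hg : Primrec fun n : ℕ => 2 ^ n.factorial := by
      simp only [← Finset.prod_range_add_one_eq_factorial]; fun_prop
    obtain ⟨f, h1, h2, h3⟩ := main (h := fun n => 2 ^ 2 ^ n)
      (L := fun c => 2 * (2 ^ (9 * c + 10)) ^ 2) hg (by fun_prop) (fun _ => by positivity) gap
    obtain ⟨y, a1, a2, a3⟩ := k (a := gf f) ⟨f, (ci_gf f).red, h1, h2⟩
    obtain ⟨x, b1, b2⟩ := h3 y (CI.of_red a1) a2
    exact b2 (a3 x b1)

end Pool.Agent.Results.MP_738f0f_lc.Q2
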